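import Mathlib

/-!
Noether normalization inside a field: a transcendence basis adapted to finitely many elements.
-/

set_option autoImplicit false

open MvPolynomial

namespace Pool.Agent.Q34.AB

/-- integral elements under a square of ring homomorphisms -/
theorem int_square {R A S K : Type*} [CommRing R] [CommRing A] [CommRing S] [CommRing K]
    [Algebra S K] (f : R →+* A) (ψ : A →+* K) (h : R →+* S)
    (hc : (algebraMap S K).comp h = ψ.comp f) {a : A} (ha : f.IsIntegralElem a) :
    IsIntegral S (ψ a) := by
  obtain ⟨p, hp, he⟩ := ha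
  refine ⟨p.map h, hp.map h, ?_⟩
  rw [Polynomial.eval₂_map, hc, ← Polynomial.hom_eval₂, he, map_zero]

/-- **A transcendence basis adapted to the elements `g`.** -/
theorem exists_basis {k K : Type} [Field k] [Field K] [Algebra k K] {n r : ℕ}
    (htr : Algebra.trdeg k K = ((n + 1 : ℕ) : Cardinal)) (g : Fin r → K) :
    ∃ (X : Fin (n + 1) → K) (J : Finset (Fin (n + 1))), IsTranscendenceBasis k X ∧
      (∀ j, j ∉ J → X j ∈ Algebra.adjoin k (Set.range g)) ∧
      ∀ i, IsIntegral (Algebra.adjoin k (X '' {j | j ∉ J})) (g i) := by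
  classical
  obtain ⟨A, hA⟩ : ∃ A, A = Algebra.adjoin k (Set.range g) := ⟨_, rfl⟩
  have hft : Algebra.FiniteType k A := by
    rw [hA]
    exact Algebra.FiniteType.adjoin_of_finite (Set.finite_range g)
  obtain ⟨s, f, finj, fint⟩ := exists_integral_inj_algHom_of_fg k A
  let x : Fin s → K := fun i => (f (X i) : K)
  have hxf : ∀ P : MvPolynomial (Fin s) k, aeval x P = (f P : K) := by
    intro P
    have h1 : aeval x = A.val.comp f := by
      apply MvPolynomial.algHom_ext
      intro i
      rw [aeval_X]
      rfl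
    rw [h1]
    rfl
  have hind : AlgebraicIndependent k x := by
    refine (injective_iff_map_eq_zero _).2 fun P hP => ?_
    rw [hxf] at hP
    have h2 : f P = 0 := by
      apply Subtype.ext
      exact hP
    exact (injective_iff_map_eq_zero f).1 finj P h2
  obtain ⟨T, hST, hT⟩ := exists_isTranscendenceBasis_superset (R := k) (s := Set.range x)
    hind.to_subtype_range
  have hcard : Cardinal.mk T = ((n + 1 : ℕ) : Cardinal) := by
    rw [hT.cardinalMk_eq_trdeg, htr]
  have hfin : Finite T := by
    rw [← Cardinal.mk_lt_aleph0_iff, hcard]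
    exact Cardinal.natCast_lt_aleph0
  obtain ⟨e⟩ : Nonempty (Fin (n + 1) ≃ T) := by
    rw [← Cardinal.eq, hcard]
    simp
  have hXb : IsTranscendenceBasis k fun j => (e j : K) := hT.comp_equiv e
  refine ⟨fun j => (e j : K), Finset.univ.filter fun j => (e j : K) ∉ Set.range x, hXb, ?_, ?_⟩
  · intro j hj
    have h1 : (e j : K) ∈ Set.range x := by
      by_contra h2
      exact hj (Finset.mem_filter.2 ⟨Finset.mem_univ _, h2⟩)
    obtain ⟨i, hi⟩ := h1
    change (e j : K) ∈ _
    rw [← hA, ← hi]
    exact (f (X i)).2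
  · intro i
    obtain ⟨B, hB⟩ : ∃ B, B = Algebra.adjoin k ((fun j => (e j : K)) ''
        {j | j ∉ Finset.univ.filter fun j => (e j : K) ∉ Set.range x}) := ⟨_, rfl⟩
    rw [← hB]
    have hxB : ∀ i, x i ∈ B := by
      intro i
      rw [hB]
      apply Algebra.subset_adjoin
      have h1 : x i ∈ T := hST ⟨i, rfl⟩
      refine ⟨e.symm ⟨x i, h1⟩, ?_, ?_⟩
      · rw [Set.mem_ofPred_eq, Finset.mem_filter, not_and, not_not]
        intro _
        rw [Equiv.apply_symm_apply]
        exact ⟨i, rfl⟩
      · change ((e (e.symm ⟨x i, h1⟩) : T) : K) = x i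
        rw [Equiv.apply_symm_apply]
    have hgA : g i ∈ A := by
      rw [hA]
      exact Algebra.subset_adjoin ⟨i, rfl⟩
    let h : MvPolynomial (Fin s) k →ₐ[k] B := aeval fun i => (⟨x i, hxB i⟩ : B)
    have hc : (algebraMap B K).comp (h : MvPolynomial (Fin s) k →+* B) =
        (A.val : A →+* K).comp (f : MvPolynomial (Fin s) k →+* A) := by
      have h1 : B.val.comp h = A.val.comp f := by
        apply MvPolynomial.algHom_ext
        intro i
        change ((h (X i) : B) : K) = _
        rw [aeval_X]
        rfl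
      exact RingHom.ext fun P => DFunLike.congr_fun h1 P
    exact int_square (f : MvPolynomial (Fin s) k →+* A) (A.val : A →+* K)
      (h : MvPolynomial (Fin s) k →+* B) hc (fint ⟨g i, hgA⟩)

end Pool.Agent.Q34.AB
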