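import Pool.Agent.Q41.AB.Stm3
import Pool.Agent.Q34.AB.IntA
import Pool.Agent.TH756.PN.Inf
import Pool.Agent.TH756.PN.Restr
import Pool.Agent.Y169.CH.Clo
import Pool.Agent.Y199.NN.NegA1

/-!
Functions which are regular at the divisorial places where `g` is regular are integral over the
algebra generated by `g`.
-/

set_option autoImplicit false
set_option linter.overlappingInstances false
set_option linter.unusedSectionVars false

open FF MvPolynomial IntermediateField Pool.Agent.W603.LV Pool.Agent.W619.PQ
open Pool.Agent.W602.GT Pool.Agent.TH122.AB Pool.Agent.TH756.PN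

namespace Pool.Agent.Q34.AB

section

variable {k : Type} [Field k] [CharZero k] {K0 K : Type} [Field K0] [Field K] [Algebra k K0]
  [Algebra k K] [Algebra K0 K] [IsScalarTower k K0 K] {n : ℕ}

/-- the place at infinity in the variables of `B`: the places over it are divisorial -/
theorem exists_infD {X : Fin (n + 1) → K0} (hX : Gens (k := k) X) {B : Finset (Fin (n + 1))}
    {c : Fin (n + 1)} (hB : c ∈ B) :
    ∃ v0 : Place k K0,
      (∀ P : MvPolynomial (Fin (n + 1)) k, P ≠ 0 →
        v0.ord (aeval X P) = - (degB B P : ℤ)) ∧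
      ∀ (w : Place k K) (e : ℕ), Over w v0 e → IsDivisorial w (n + 1) := by
  classical
  let X' : Fin (n + 1) → K0 := fun j =>
    if j = c then (X c)⁻¹ else if j ∈ B then X j / X c else X j
  have hf : Flip B c X X' := by
    refine ⟨if_pos rfl, fun j hj hj0 => ?_, fun j hj => ?_⟩
    · change (if j = c then (X c)⁻¹ else if j ∈ B then X j / X c else X j) = _
      rw [if_neg hj0, if_pos hj]
    · change (if j = c then (X c)⁻¹ else if j ∈ B then X j / X c else X j) = _
      rw [if_neg (by rintro rfl; exact hj hB), if_neg hj]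
  have hX' : Gens (k := k) X' := flip_gens hB hX hf
  have hirr : Irreducible (MvPolynomial.X c : MvPolynomial (Fin (n + 1)) k) :=
    (MvPolynomial.X_prime (R := k) (i := c)).irreducible
  obtain ⟨v0, hv1, hv0⟩ := exists_adic hX' hirr
  rw [aeval_X] at hv1
  exact ⟨v0, fun P hP => ord_deg hB hX hf hv1 hv0 hP, fun w e h => div_adic hX' hirr hv0 h⟩

end

section

variable {K : Type} [Field K] [Algebra ℂ K] {n r : ℕ}

/-- regularity of an algebra generated by regular elements -/
theorem reg_adjoin {P : Place ℂ K} {S : Set K} (hS : ∀ s ∈ S, P.Reg s)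
    (a : Algebra.adjoin ℂ S) : P.Reg (algebraMap (Algebra.adjoin ℂ S) K a) := by
  obtain ⟨a, ha⟩ := a
  change P.Reg a
  induction ha using Algebra.adjoin_induction with
  | mem x hx => exact hS x hx
  | algebraMap c => exact P.reg_const c
  | add x y _ _ hx hy => exact P.reg_add hx hy
  | mul x y _ _ hx hy => exact P.reg_mul hx hy

/-- the coefficients of a product of linear polynomials with regular roots are regular -/
theorem reg_coeff {k L : Type} [Field k] [Field L] [Algebra k L] (w : Place k L) {ι : Type}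
    (s : Finset ι) (a : ι → L) (ha : ∀ i, w.Reg (a i)) (m : ℕ) :
    w.Reg ((∏ i ∈ s, (Polynomial.X - Polynomial.C (a i))).coeff m) := by
  have h1 : (∏ i ∈ s, (Polynomial.X - Polynomial.C (a i))) =
      (∏ i ∈ s, (Polynomial.X - Polynomial.C (⟨a i, ha i⟩ : w.O))).map w.O.subtype := by
    rw [Polynomial.map_prod]
    refine Finset.prod_congr rfl fun i _ => ?_
    rw [Polynomial.map_sub, Polynomial.map_X, Polynomial.map_C]
    rfl
  rw [h1, Polynomial.coeff_map]
  exact ((∏ i ∈ s, (Polynomial.X - Polynomial.C (⟨a i, ha i⟩ : w.O))).coeff m).2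

end

theorem int : Pool.Agent.Q41.AB.S_Int := by
  intro K _ _ _ n r htr g φ hφ
  classical
  obtain ⟨X, J, hX, hXA, hint⟩ := exists_basis htr g
  have hfd := Pool.Agent.Y199.NN.fin_over' X hX
  obtain ⟨K', iF, iA, iK, hT, G0, G, finG0, finG, -, -, -, -, -, a1, a2, a3, a4, Y', X', -, gX, -,
    hXX, -⟩ := Pool.Agent.Y169.CH.exists_closure2 hX hX le_rfl hfd
  obtain ⟨A, hA⟩ : ∃ A, A = Algebra.adjoin ℂ (Set.range g) := ⟨_, rfl⟩
  rw [← hA]
  let _ : Fintype G := Fintype.ofFinite G
  obtain ⟨z, hz⟩ : ∃ z : K', z = algebraMap K K' φ := ⟨_, rfl⟩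
  obtain ⟨p, hp⟩ : ∃ p, p = MulSemiringAction.charpoly G z := ⟨_, rfl⟩
  -- the coefficients are regular
  have key : ∀ v : Place ℂ (fixedField G), (∀ (w : Place ℂ K) (e : ℕ), Over w v e →
      IsDivisorial w (n + 1)) → (∀ j, j ∉ J → v.Reg (X' j)) →
      ∀ (m : ℕ) (c : fixedField G), (c : K') = p.coeff m → v.Reg c := by
    intro v hdiv hreg m c hc
    obtain ⟨w, e, -, hw, -⟩ := exists_inertia G v
    have h1 : ∀ g' : G, w.Reg ((g' : K' ≃ₐ[ℂ] K') z) := by
      intro g'
      have h2 := Pool.Agent.TH122.AB.over_comp hw g'.2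
      obtain ⟨P, e1, e2, hP1, hP2, -⟩ := exists_restr (K := K) h2
      have h3 : ∀ x ∈ X '' {j | j ∉ J}, P.Reg x := by
        rintro _ ⟨j, hj, rfl⟩
        rw [← hXX j, hP2.reg]
        exact hreg j hj
      have h4 : ∀ i, P.Reg (g i) := fun i => P.reg_of_isIntegral (reg_adjoin h3) (hint i)
      have h5 := hφ P (hdiv P e2 hP2) h4
      have h6 := hP1.reg.2 h5
      rw [← hz] at h6
      rcases h6 with h6 | h6
      · left
        rw [h6, map_zero]
      · right
        rw [Place.comp_ord] at h6
        exact h6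
    have h2 := reg_coeff w Finset.univ (fun g' : G => (g' : K' ≃ₐ[ℂ] K') z) h1 m
    have h3 : w.Reg (c : K') := by
      rw [hc, hp]
      exact h2
    exact hw.reg.1 h3
  -- the coefficients are polynomials in the elements outside `J`
  have hfixed : ∀ m, p.coeff m ∈ fixedField G := by
    intro m g'
    rw [hp]
    exact MulSemiringAction.smul_coeff_charpoly z m g'
  let ψ : A →+* K' := (algebraMap K K').comp (algebraMap A K)
  have hcoef : ∀ m, ∃ a : A, ψ a = p.coeff m := by
    intro m
    obtain ⟨c, hc⟩ : ∃ c : fixedField G, (c : K') = p.coeff m := ⟨⟨_, hfixed m⟩, rfl⟩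
    obtain ⟨P, hP⟩ := poly_of_reg gX (z := c) fun q hq v _ hv2 =>
      key v (fun w e h => div_adic gX hq hv2 h) (fun j _ => Or.inr (by
        have h1 := (hv2 (MvPolynomial.X j) (X_ne_zero j)).1
        rwa [aeval_X] at h1)) m c hc
    have hJ : ∀ d ∈ P.support, ∀ j ∈ J, d j = 0 := by
      intro d hd j hj
      have hP0 : P ≠ 0 := by
        rintro rfl
        simp at hd
      obtain ⟨v0, h1, h2⟩ := exists_infD (K := K) gX hj
      have h3 := key v0 h2 (fun i hi => Or.inr (by
        have h4 := h1 (MvPolynomial.X i) (X_ne_zero i)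
        have h5 : degB J (MvPolynomial.X i : MvPolynomial (Fin (n + 1)) ℂ) = 0 := by
          unfold degB
          rw [support_X, Finset.sup_singleton]
          refine Finset.sum_eq_zero fun b hb => ?_
          rw [Finsupp.single_apply, if_neg]
          rintro rfl
          exact hi hb
        rw [aeval_X, h5] at h4
        rw [h4]
        simp)) m c hc
      rw [hP, v0.reg_iff (gX.ne hP0), h1 P hP0] at h3
      have h4 := sum_le_degB (B := J) hd
      have h5 : ∑ b ∈ J, d b = 0 := by omega
      exact (Finset.sum_eq_zero_iff.1 h5) j hj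
    have hmem : aeval X P ∈ A := by
      rw [aeval_def, eval₂_eq']
      refine Subalgebra.sum_mem _ fun d hd => ?_
      refine Subalgebra.mul_mem _ (Subalgebra.algebraMap_mem _ _) ?_
      refine Subalgebra.prod_mem _ fun j _ => ?_
      by_cases hj : j ∈ J
      · rw [hJ d hd j hj, pow_zero]
        exact Subalgebra.one_mem _
      · rw [hA]
        exact Subalgebra.pow_mem _ (hXA j hj) _
    refine ⟨⟨aeval X P, hmem⟩, ?_⟩
    change algebraMap K K' (aeval X P) = _
    rw [← hc, hP]
    change _ = algebraMap (fixedField G) K' (aeval X' P)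
    rw [← MvPolynomial.aeval_algebraMap_apply, ← MvPolynomial.aeval_algebraMap_apply]
    congr 2
    funext j
    rw [Function.comp_apply, Function.comp_apply, ← hXX j]
    exact (IsScalarTower.algebraMap_apply (fixedField G) K K' (X' j)).symm
  have hl : p ∈ Polynomial.lifts ψ := (Polynomial.lifts_iff_coeff_lifts p).2 fun m => hcoef m
  have hmon : p.Monic := by
    rw [hp]
    exact MulSemiringAction.monic_charpoly G z
  obtain ⟨q, hq1, -, hq2⟩ := Polynomial.lifts_and_natDegree_eq_and_monic hl hmon
  refine ⟨q, hq2, ?_⟩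
  apply (algebraMap K K').injective
  rw [Polynomial.hom_eval₂, map_zero, ← hz, ← Polynomial.eval_map]
  change Polynomial.eval z (q.map ψ) = 0
  rw [hq1, hp]
  exact MulSemiringAction.eval_charpoly G z

end Pool.Agent.Q34.AB
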